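import Mathlib

set_option autoImplicit false

namespace Pool.Agent.Results.MP_2b19eb_nt.NeverMultipleOf81

/-- `L n = lcm {1, …, n}`. -/
def L (n : ℕ) : ℕ := (Finset.Icc 1 n).lcm id

/-- `a n = L_n / q_n`, `q_n` being the denominator in lowest terms of the harmonic number
`H_n = 1 + 1/2 + ⋯ + 1/n` (Mathlib's `harmonic n`). -/
def a (n : ℕ) : ℚ := (L n : ℚ) / ((harmonic n).den : ℚ)

theorem norm_inv_nat_le (n : ℕ) (hn : ¬ 3 ∣ n) : padicNorm 3 ((n : ℚ)⁻¹) = 1 := by
  have h : padicNorm 3 (n : ℚ) = 1 := padicNorm.nat_eq_one_iff n |>.mpr hn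
  have h2 := padicNorm.div (p := 3) 1 (n : ℚ)
  rw [one_div, padicNorm.one, h] at h2
  simpa using h2

theorem recursion (n : ℕ) : ∃ R : ℚ, padicNorm 3 R ≤ 1 ∧
    harmonic n = harmonic (n / 3) / 3 + R := by
  induction n with
  | zero => exact ⟨0, by simp, by simp⟩
  | succ n ih =>
    obtain ⟨R, hR, h⟩ := ih
    by_cases h3 : 3 ∣ n + 1
    · refine ⟨R, hR, ?_⟩
      have h4 : (n + 1) / 3 = n / 3 + 1 := by omega
      rw [harmonic_succ, h4, harmonic_succ, h]
      have h5 : ((n + 1 : ℕ) : ℚ) = 3 * ((n / 3 + 1 : ℕ) : ℚ) := by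
        have : n + 1 = 3 * (n / 3 + 1) := by omega
        exact_mod_cast this
      rw [h5, mul_inv]
      ring
    · refine ⟨R + ((n + 1 : ℕ) : ℚ)⁻¹, ?_, ?_⟩
      · refine (padicNorm.nonarchimedean (p := 3)).trans ?_
        rw [norm_inv_nat_le _ h3]
        exact max_le hR le_rfl
      · have h4 : (n + 1) / 3 = n / 3 := by omega
        rw [harmonic_succ, h4, h]
        ring

theorem norm_eq_one {q : ℚ} (A B : ℕ) (hA : ¬ 3 ∣ A) (hB : ¬ 3 ∣ B) (h : q = (A : ℚ) / B) :
    padicNorm 3 q = 1 := by
  rw [h, padicNorm.div, (padicNorm.nat_eq_one_iff A).mpr hA, (padicNorm.nat_eq_one_iff B).mpr hB,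
    div_one]

theorem norm_eq_third {q : ℚ} (A B : ℕ) (hA : ¬ 3 ∣ A) (hB : ¬ 3 ∣ B)
    (h : q = 3 * ((A : ℚ) / B)) : padicNorm 3 q = 1 / 3 := by
  have h1 := norm_eq_one (q := (A : ℚ) / B) A B hA hB rfl
  have h3 : padicNorm 3 (3 : ℚ) = 1 / 3 := by
    have := padicNorm.padicNorm_p (p := 3) (by norm_num)
    simpa using this
  rw [h, padicNorm.mul, h1, h3, mul_one]

theorem key (n : ℕ) : 1 ≤ n → (3 : ℚ) ^ (Nat.log 3 n) ≤ 27 * padicNorm 3 (harmonic n) ∧
    (n ≠ 2 → n ≠ 7 → n ≠ 22 → 1 ≤ padicNorm 3 (harmonic n)) := by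
  induction n using Nat.strong_induction_on with
  | _ n ih =>
  intro hn
  by_cases hlt : n < 3
  · have hlog : Nat.log 3 n = 0 := Nat.log_of_lt hlt
    rw [hlog]
    interval_cases n
    · have h := norm_eq_one (q := harmonic 1) 1 1 (by norm_num) (by norm_num)
        (by norm_num [harmonic, Finset.sum_range_succ])
      rw [h]; norm_num
    · have h := norm_eq_third (q := harmonic 2) 1 2 (by norm_num) (by norm_num)
        (by norm_num [harmonic, Finset.sum_range_succ])
      rw [h]; norm_num
  · push Not at hlt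
    have hlog : Nat.log 3 n = Nat.log 3 (n / 3) + 1 := Nat.log_of_one_lt_of_le (by norm_num) hlt
    by_cases h2 : n / 3 = 2
    · have hl2 : Nat.log 3 2 = 0 := by norm_num
      rw [hlog, h2, hl2]
      have hc : n = 6 ∨ n = 7 ∨ n = 8 := by omega
      rcases hc with rfl | rfl | rfl
      · have h := norm_eq_one (q := harmonic 6) 49 20 (by norm_num) (by norm_num)
          (by norm_num [harmonic, Finset.sum_range_succ])
        rw [h]; norm_num
      · have h := norm_eq_third (q := harmonic 7) 121 140 (by norm_num) (by norm_num)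
          (by norm_num [harmonic, Finset.sum_range_succ])
        rw [h]; norm_num
      · have h := norm_eq_one (q := harmonic 8) 761 280 (by norm_num) (by norm_num)
          (by norm_num [harmonic, Finset.sum_range_succ])
        rw [h]; norm_num
    by_cases h7 : n / 3 = 7
    · have hl2 : Nat.log 3 7 = 1 := by norm_num
      rw [hlog, h7, hl2]
      have hc : n = 21 ∨ n = 22 ∨ n = 23 := by omega
      rcases hc with rfl | rfl | rfl
      · have h := norm_eq_one (q := harmonic 21) 18858053 5173168 (by norm_num) (by norm_num)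
          (by norm_num [harmonic, Finset.sum_range_succ])
        rw [h]; norm_num
      · have h := norm_eq_third (q := harmonic 22) 6364399 5173168 (by norm_num) (by norm_num)
          (by norm_num [harmonic, Finset.sum_range_succ])
        rw [h]; norm_num
      · have h := norm_eq_one (q := harmonic 23) 444316699 118982864 (by norm_num) (by norm_num)
          (by norm_num [harmonic, Finset.sum_range_succ])
        rw [h]; norm_num
    by_cases h22 : n / 3 = 22
    · have hl2 : Nat.log 3 22 = 2 := by norm_num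
      rw [hlog, h22, hl2]
      have hc : n = 66 ∨ n = 67 ∨ n = 68 := by omega
      rcases hc with rfl | rfl | rfl
      · have h := norm_eq_one (q := harmonic 66) 209060999005535159677640233 43787662374178602500420800 (by norm_num) (by norm_num)
          (by norm_num [harmonic, Finset.sum_range_succ])
        rw [h]; norm_num
      · have h := norm_eq_one (q := harmonic 67) 14050874595745034300902316411 2933773379069966367528193600 (by norm_num) (by norm_num)
          (by norm_num [harmonic, Finset.sum_range_succ])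
        rw [h]; norm_num
      · have h := norm_eq_one (q := harmonic 68) 14094018321907827923954201611 2933773379069966367528193600 (by norm_num) (by norm_num)
          (by norm_num [harmonic, Finset.sum_range_succ])
        rw [h]; norm_num
    obtain ⟨ih1, ih2⟩ := ih (n / 3) (by omega) (by omega)
    have h1 := ih2 h2 h7 h22
    obtain ⟨R, hR, hrec⟩ := recursion n
    have h3 : padicNorm 3 (harmonic (n / 3) / 3) = 3 * padicNorm 3 (harmonic (n / 3)) := by
      have h3 : padicNorm 3 (3 : ℚ) = 1 / 3 := by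
        have := padicNorm.padicNorm_p (p := 3) (by norm_num)
        simpa using this
      rw [padicNorm.div, h3]
      ring
    have h4 : padicNorm 3 (harmonic n) = 3 * padicNorm 3 (harmonic (n / 3)) := by
      rw [hrec, padicNorm.add_eq_max_of_ne, h3]
      · apply max_eq_left
        linarith
      · rw [h3]
        intro h5
        linarith
    rw [h4, hlog]
    constructor
    · rw [pow_succ]
      linarith
    · intro _ _ _
      linarith

theorem log_bound (n : ℕ) : ¬ 3 ^ (Nat.log 3 n + 1) ∣ L n := by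
  intro h
  have h1 : L n ∣ 3 ^ (Nat.log 3 n) * ∏ i ∈ Finset.Icc 1 n, ordCompl[3] i := by
    apply Finset.lcm_dvd
    intro i hi
    rw [Finset.mem_Icc] at hi
    have h2 : ordProj[3] i * ordCompl[3] i = i := Nat.ordProj_mul_ordCompl_eq_self i 3
    show i ∣ _
    rw [← h2]
    refine mul_dvd_mul ?_ ?_
    · apply pow_dvd_pow
      refine Nat.le_log_of_pow_le (by norm_num) ?_
      exact (Nat.le_of_dvd (by omega) (Nat.ordProj_dvd i 3)).trans hi.2
    · exact Finset.dvd_prod_of_mem (fun i => ordCompl[3] i) (Finset.mem_Icc.mpr hi)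
  have h3 := h.trans h1
  rw [pow_succ] at h3
  have h4 : 3 ∣ ∏ i ∈ Finset.Icc 1 n, ordCompl[3] i :=
    Nat.dvd_of_mul_dvd_mul_left (by positivity) h3
  rw [Nat.Prime.prime (by norm_num : Nat.Prime 3) |>.dvd_finsetProd_iff] at h4
  obtain ⟨i, hi, h5⟩ := h4
  rw [Finset.mem_Icc] at hi
  exact Nat.not_dvd_ordCompl (by norm_num) (by omega) h5

theorem L_pos (n : ℕ) : 0 < L n := by
  unfold L
  apply Nat.pos_of_ne_zero
  intro h
  rw [Finset.lcm_eq_zero_iff] at h
  simp at h

/-- There is an odd number (namely `81`) no multiple of which is a value of the sequence `a`;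
in particular it is not itself a value. -/
theorem result : ∃ m : ℕ, Odd m ∧ ∀ n : ℕ, 1 ≤ n → ∀ t : ℕ, a n ≠ ((m * t : ℕ) : ℚ) := by
  refine ⟨81, by decide, ?_⟩
  intro n hn t h
  obtain ⟨h1, _⟩ := key n hn
  have hq : ((harmonic n).den : ℚ) ≠ 0 := by exact_mod_cast (harmonic n).den_nz
  unfold a at h
  rw [div_eq_iff hq] at h
  have h2 : L n = 81 * t * (harmonic n).den := by exact_mod_cast h
  -- the norm of the harmonic number
  set e := (harmonic n).den.factorization 3 with he
  have h3 : padicNorm 3 (harmonic n) ≤ (3 : ℚ) ^ e := by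
    have hnum : padicNorm 3 (((harmonic n).num : ℤ) : ℚ) ≤ 1 := padicNorm.of_int _
    have hden : padicNorm 3 (((harmonic n).den : ℕ) : ℚ) = ((3 : ℚ) ^ e)⁻¹ := by
      rw [padicNorm.eq_zpow_of_nonzero hq]
      rw [padicValRat.of_nat, he, Nat.factorization_def _ (by norm_num : Nat.Prime 3)]
      rw [zpow_neg, zpow_natCast]
      norm_num
    have h5 : harmonic n = ((harmonic n).num : ℚ) / ((harmonic n).den : ℚ) :=
      (Rat.num_div_den _).symm
    rw [h5, padicNorm.div, hden, div_inv_eq_mul]
    have : (0 : ℚ) < 3 ^ e := by positivity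
    nlinarith
  have h4 : (3 : ℚ) ^ (Nat.log 3 n) ≤ 3 ^ (3 + e) := by
    rw [pow_add]
    calc (3 : ℚ) ^ (Nat.log 3 n) ≤ 27 * padicNorm 3 (harmonic n) := h1
      _ ≤ 27 * 3 ^ e := by linarith
      _ = 3 ^ 3 * 3 ^ e := by norm_num
  have h5 : Nat.log 3 n ≤ 3 + e := by
    by_contra hcon
    push Not at hcon
    have := pow_lt_pow_right₀ (by norm_num : (1 : ℚ) < 3) hcon
    linarith
  apply log_bound n
  have h6 : 3 ^ (Nat.log 3 n + 1) ∣ 3 ^ (4 + e) := pow_dvd_pow 3 (by omega)
  refine h6.trans ?_
  rw [h2, pow_add]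
  have h7 : 3 ^ e ∣ (harmonic n).den := Nat.ordProj_dvd _ _
  have h8 : 3 ^ 4 ∣ 81 * t := ⟨t, by ring⟩
  exact mul_dvd_mul h8 h7

end Pool.Agent.Results.MP_2b19eb_nt.NeverMultipleOf81
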